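import Pool.Agent.J4H12.TB.Bas2
import Pool.Agent.J4H12.TB.Final
import Pool.Agent.J4H56.TB.Shr
import Pool.Agent.J4H56.TB.Wrd
import Pool.Agent.J4H56.TB.Hyp
import Pool.Agent.J4H98.TB.Esc
import Pool.Agent.J4H98.TB.Stn
import Pool.Agent.J4H48.TB.Jac
import Pool.Agent.J4H48.TB.Pair
import Pool.Agent.J4H48.TB.Spd
import Pool.Agent.J4H64.TB.Grp
import Pool.Agent.J4H75.TB.Crn
import Pool.Agent.J4H75.TB.Exf
import Pool.Agent.J4H73.TB.Main
import Pool.Agent.J4H73.TB.Exn
import Pool.Agent.J4H67.TB.Psi
import Pool.Agent.J4H67.TB.Fr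
import Pool.Agent.J4H67.TB.Csf
import Pool.Agent.J4H19.TB.Exu
import Pool.Agent.J4H19.TB.Dur

/-!
# Reduced eclipse sequences of hyperbolic three-body solutions have bounded length

Consider the planar Newtonian three-body problem. For all masses `m` there is a constant `N`,
depending only on the ratios of the masses, such that every hyperbolic solution with finitely many
eclipses has a reduced eclipse sequence of length at most `N` (Q2: yes, and not only for equal
masses). In particular, whatever the masses are, some reduced word (in fact every reduced word of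
length greater than `N`) is not the reduced eclipse sequence of a hyperbolic solution (Q1: no).

The definitions `massNorm`, `energy`, `IsHyperbolic`, `Ecl`, `IsEclipseSequence`, `Del`,
`IsReduced`, `IsReducedEclipseSequence` are in `Pool/Agent/J4H12/TB/Problem.lean`.

Idea of the proof. McGehee's function `v = √ρ ρ'` is increasing, and in the region `E ρ ≤ 1` it is
bounded by a constant depending only on the masses, because a binary which is tight compared with
its distance to the third body can never be broken up in both directions of time. A change of the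
eclipse label costs a definite amount of `v`, or it takes place during a close passage of a binary,
which has bounded turning. In the region `E ρ ≥ 1` one uses the total change of shape instead.
-/

set_option autoImplicit false

namespace Pool.Agent.Results.MP_877ce7_an.BoundedEclipseWords

open Pool.Agent.J4H12.TB

/-- For all masses `m` there is `N` such that for every `c > 0` every hyperbolic solution with
masses `c * m` and finitely many eclipses has a reduced eclipse sequence of length at most `N`; and
for all masses `m` some reduced word is not the reduced eclipse sequence of any hyperbolic solution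
with masses `m`. -/
theorem result (m : Fin 3 → ℝ) (hm : ∀ a, 0 < m a) :
    (∃ N : ℕ, ∀ c : ℝ, 0 < c → ∀ q : Fin 3 → ℝ → ℂ, IsHyperbolic (fun a => c * m a) q →
      ∀ w : List (Fin 3), IsReducedEclipseSequence q w → w.length ≤ N) ∧
    (∃ w : List (Fin 3), IsReduced w ∧
      ∀ q : Fin 3 → ℝ → ℂ, IsHyperbolic m q → ¬ IsReducedEclipseSequence q w) := by
  have hB : S_BAS := t_BAS
  have hP : S_PAIR := Pool.Agent.J4H48.TB.t_PAIR hB Pool.Agent.J4H56.TB.t_CYC
    Pool.Agent.J4H48.TB.t_JAC Pool.Agent.J4H98.TB.t_ESC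
  have hV : S_SPD := Pool.Agent.J4H48.TB.t_SPD hB hP
  have hRA : S_RA := Pool.Agent.J4H64.TB.t_RA
  have hPSI : S_PSI := Pool.Agent.J4H67.TB.t_PSI hB
  have hSTN : S_STN := Pool.Agent.J4H98.TB.t_STN hB Pool.Agent.J4H56.TB.t_SHT
    Pool.Agent.J4H56.TB.t_SCL Pool.Agent.J4H56.TB.t_CYC hPSI
  have hCRN : S_CRN := Pool.Agent.J4H75.TB.t_CRN hB
  have hCSN : S_CSN := Pool.Agent.J4H75.TB.t_CSN hB hRA hCRN hSTN
  have hEXU : S_EXU := Pool.Agent.J4H19.TB.t_EXU
  have hDUR : S_DUR := Pool.Agent.J4H19.TB.t_DUR
  have hCNT : S_CNT := Pool.Agent.J4H64.TB.t_CNT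
  have hEXN : S_EXN := Pool.Agent.J4H73.TB.t_EXN hB hP hEXU hDUR hCNT
  have hGRP : S_GRP := Pool.Agent.J4H64.TB.t_GRP
  have hNEAR : S_NEAR := Pool.Agent.J4H64.TB.t_NEAR hB hCSN hEXN hGRP
  have hFR : S_FR := Pool.Agent.J4H67.TB.t_FR hB
  have hCSF : S_CSF := Pool.Agent.J4H67.TB.t_CSF hB hRA hFR
  have hEXF : S_EXF := Pool.Agent.J4H75.TB.t_EXF hB hP hFR hEXU hCNT
  have hFAR : S_FAR := Pool.Agent.J4H64.TB.t_FAR hB hCSF hEXF hGRP
  have hMAIN : S_MAIN := Pool.Agent.J4H73.TB.t_MAIN hB Pool.Agent.J4H56.TB.t_SHT
    Pool.Agent.J4H56.TB.t_REV Pool.Agent.J4H56.TB.t_SCL hV hNEAR hFAR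
  exact final hMAIN Pool.Agent.J4H56.TB.t_WRD (Pool.Agent.J4H56.TB.t_HYP hB) m hm

end Pool.Agent.Results.MP_877ce7_an.BoundedEclipseWords
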